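import Pool.Agent.L5helper59.DM.Defs

set_option autoImplicit false

open MvPolynomial Filter Topology

namespace Pool.Agent.L5helper59.DM

/-- D11: a finite set of points, each of which has nearby points with a property for all large
`k`, can be moved for some `k` -/
theorem move_points {ι : Type} [Fintype ι] [DecidableEq ι] (S : Finset (ι → ℂ))
    (Q : ℕ → (ι → ℂ) → Prop)
    (h : ∀ p ∈ S, ∀ ε : ℝ, 0 < ε → ∀ᶠ k in atTop, ∃ p' : ι → ℂ, (∀ i, ‖p' i - p i‖ ≤ ε) ∧ Q k p') :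
    ∃ K, ∀ k ≥ K, ∃ S' : Finset (ι → ℂ), S'.card = S.card ∧ ∀ p ∈ S', Q k p := by
  classical
  have h1 : ∀ᶠ ε : ℝ in 𝓝[>] 0, ∀ x ∈ S.offDiag, 2 * ε < dist x.1 x.2 := by
    rw [Finset.eventually_all]
    intro x hx
    have hne : x.1 ≠ x.2 := (Finset.mem_offDiag.1 hx).2.2
    have hd : 0 < dist x.1 x.2 := dist_pos.2 hne
    have ht : Tendsto (fun ε : ℝ => 2 * ε) (𝓝[>] 0) (𝓝 0) := by
      have : Tendsto (fun ε : ℝ => 2 * ε) (𝓝 0) (𝓝 (2 * 0)) := tendsto_id.const_mul 2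
      rw [mul_zero] at this
      exact this.mono_left nhdsWithin_le_nhds
    exact ht.eventually (gt_mem_nhds hd)
  obtain ⟨ε, hε, hε0⟩ := (h1.and self_mem_nhdsWithin).exists
  have hε0' : 0 < ε := hε0
  have h2 : ∀ᶠ k in atTop, ∀ p ∈ S, ∃ p' : ι → ℂ, (∀ i, ‖p' i - p i‖ ≤ ε) ∧ Q k p' := by
    rw [Finset.eventually_all]
    exact fun p hp => h p hp ε hε0'
  obtain ⟨K, hK⟩ := eventually_atTop.1 h2
  refine ⟨K, fun k hk => ?_⟩
  choose! f hf hQ using hK k hk
  refine ⟨S.image f, ?_, ?_⟩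
  · refine Finset.card_image_of_injOn fun p hp p' hp' he => ?_
    by_contra hne
    have hd : dist p p' ≤ 2 * ε := by
      rw [dist_pi_le_iff (by positivity)]
      intro i
      have e1 := hf p hp i
      have e2 := hf p' hp' i
      rw [he] at e1
      calc dist (p i) (p' i) = ‖(f p' i - p' i) - (f p' i - p i)‖ := by
            rw [dist_eq_norm]; congr 1; ring
        _ ≤ ‖f p' i - p' i‖ + ‖f p' i - p i‖ := norm_sub_le _ _
        _ ≤ 2 * ε := by linarith
    exact absurd (hε (p, p') (Finset.mem_offDiag.2 ⟨hp, hp', hne⟩)) (not_lt.2 hd)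
  · intro p hp
    obtain ⟨p', hp', rfl⟩ := Finset.mem_image.1 hp
    exact hQ p' hp'

end Pool.Agent.L5helper59.DM
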